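import Pool.Agent.H.MP_83e36b_nt.nr.Semi

/-! The homomorphism of fields of rational functions given by a homomorphism of the fields of
coefficients. -/

set_option autoImplicit false

open CM83

namespace NF83

universe u v w

variable {K : Type u} {E : Type v} {M : Type w} [Field K] [Field E] [Field M]

private theorem rfh_inj (f : K →+* E) (d : ℕ) : Function.Injective
    ((algebraMap (MvPolynomial (Fin d) E) (RF E d)).comp (MvPolynomial.map f)) := by
  rw [RingHom.coe_comp]
  exact (IsFractionRing.injective _ _).comp (MvPolynomial.map_injective f f.injective)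

/-- the homomorphism `K(x_1, ..., x_d) → E(x_1, ..., x_d)` given by `f : K → E` -/
noncomputable def rfh (f : K →+* E) (d : ℕ) : RF K d →+* RF E d :=
  IsFractionRing.lift (A := MvPolynomial (Fin d) K) (K := RF K d) (rfh_inj f d)

theorem rfh_alg (f : K →+* E) {d : ℕ} (p : MvPolynomial (Fin d) K) :
    rfh f d (algebraMap _ _ p) = algebraMap _ _ (MvPolynomial.map f p) :=
  IsFractionRing.lift_algebraMap (rfh_inj f d) p

private theorem Rfh_alg (K : Type u) [Field K] (d : ℕ) (a : K) :
    algebraMap K (RF K d) a = algebraMap (MvPolynomial (Fin d) K) (RF K d) (MvPolynomial.C a) :=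
  IsScalarTower.algebraMap_apply K (MvPolynomial (Fin d) K) (RF K d) a

theorem rfh_C (f : K →+* E) {d : ℕ} (a : K) :
    rfh f d (algebraMap K (RF K d) a) = algebraMap E (RF E d) (f a) := by
  rw [Rfh_alg, Rfh_alg, rfh_alg, MvPolynomial.map_C]

theorem rfh_X (f : K →+* E) {d : ℕ} (i : Fin d) : rfh f d (xv K i) = xv E i := by
  unfold xv
  rw [rfh_alg, MvPolynomial.map_X]

/-- two homomorphisms which agree on the constants and on the variables are equal -/
theorem rfh_ext {R : Type w} [Field R] {d : ℕ} {f g : RF K d →+* R}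
    (hC : ∀ a, f (algebraMap K (RF K d) a) = g (algebraMap K (RF K d) a))
    (hX : ∀ i, f (xv K i) = g (xv K i)) : f = g := by
  refine IsLocalization.ringHom_ext (nonZeroDivisors (MvPolynomial (Fin d) K)) ?_
  refine MvPolynomial.ringHom_ext (fun a => ?_) (fun i => hX i)
  rw [RingHom.comp_apply, RingHom.comp_apply, ← Rfh_alg]
  exact hC a

theorem rfh_comp (f : K →+* E) (g : E →+* M) (d : ℕ) : rfh (g.comp f) d = (rfh g d).comp (rfh f d) := by
  refine rfh_ext (fun a => ?_) (fun i => ?_)
  · rw [RingHom.comp_apply, rfh_C, rfh_C, rfh_C, RingHom.comp_apply]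
  · rw [RingHom.comp_apply, rfh_X, rfh_X, rfh_X]

end NF83
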