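import Pool.Agent.H.MP_83e36b_nt.bc.FDef
import Pool.Agent.H.MP_83e36b_nt.bc.Rfh

/-! The action of the fibre product on `E(x_1, ..., x_d)`. -/

set_option autoImplicit false

open CM83 NR83

namespace NF83

section ext

variable {k K L E : Type} [Field k] [Field K] [Field L] [Field E] [Algebra k K]
    [Algebra L E] [Algebra K E] {G : Type} [Group G] {G' : Type} [Group G'] {d : ℕ}

/-- the action on polynomials -/
private noncomputable def Act_pol (ε : G' →* (E ≃ₐ[L] E)) (c : G' → Fin d → Fin d → K) (g : G') :
    MvPolynomial (Fin d) E →+* MvPolynomial (Fin d) E :=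
  MvPolynomial.eval₂Hom (MvPolynomial.C.comp ((ε g : E ≃ₐ[L] E) : E →+* E))
    (fun i => ∑ j, MvPolynomial.C (algebraMap K E (c g i j)) * MvPolynomial.X j)

private theorem Act_C (ε : G' →* (E ≃ₐ[L] E)) (c : G' → Fin d → Fin d → K) (g : G') (a : E) :
    Act_pol ε c g (MvPolynomial.C a) = MvPolynomial.C (ε g a) := by
  unfold Act_pol
  rw [MvPolynomial.coe_eval₂Hom, MvPolynomial.eval₂_C]
  rfl

private theorem Act_X (ε : G' →* (E ≃ₐ[L] E)) (c : G' → Fin d → Fin d → K) (g : G') (i : Fin d) :
    Act_pol ε c g (MvPolynomial.X i) =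
      ∑ j, MvPolynomial.C (algebraMap K E (c g i j)) * MvPolynomial.X j := by
  unfold Act_pol
  rw [MvPolynomial.coe_eval₂Hom, MvPolynomial.eval₂_X]

private theorem Act_one (ε : G' →* (E ≃ₐ[L] E)) (c : G' → Fin d → Fin d → K)
    (hc : ∀ i j, c 1 i j = if i = j then 1 else 0) : Act_pol ε c 1 = RingHom.id _ := by
  apply MvPolynomial.ringHom_ext
  · intro a
    rw [Act_C, map_one, AlgEquiv.one_apply, RingHom.id_apply]
  · intro i
    rw [Act_X, RingHom.id_apply]
    rw [Finset.sum_eq_single i]
    · rw [hc, if_pos rfl, map_one, map_one, one_mul]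
    · intro j _ hj
      rw [hc, if_neg (Ne.symm hj), map_zero, map_zero, zero_mul]
    · intro h
      exact absurd (Finset.mem_univ i) h

private theorem Act_mul (a' : G' → K → K) (ε : G' →* (E ≃ₐ[L] E))
    (hε : ∀ g a, ε g (algebraMap K E a) = algebraMap K E (a' g a)) (c : G' → Fin d → Fin d → K)
    (hc : ∀ g h i l, c (g * h) i l = ∑ j, a' g (c h i j) * c g j l) (g h : G') :
    Act_pol ε c (g * h) = (Act_pol ε c g).comp (Act_pol ε c h) := by
  apply MvPolynomial.ringHom_ext
  · intro a
    rw [RingHom.comp_apply, Act_C, Act_C, Act_C, map_mul, AlgEquiv.mul_apply]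
  · intro i
    rw [RingHom.comp_apply, Act_X, Act_X, map_sum]
    have h1 : ∀ j, Act_pol ε c g (MvPolynomial.C (algebraMap K E (c h i j)) *
        MvPolynomial.X j) =
        ∑ l, MvPolynomial.C (algebraMap K E (a' g (c h i j) * c g j l)) * MvPolynomial.X l := by
      intro j
      rw [map_mul, Act_C, Act_X, hε, Finset.mul_sum]
      refine Finset.sum_congr rfl fun l _ => ?_
      rw [map_mul, map_mul]
      ring
    rw [Finset.sum_congr rfl fun j _ => h1 j, Finset.sum_comm]
    refine Finset.sum_congr rfl fun l _ => ?_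
    rw [hc, map_sum, map_sum, Finset.sum_mul]

private theorem Act_alg (K : Type) [Field K] (d : ℕ) (a : K) :
    algebraMap K (RF K d) a = algebraMap (MvPolynomial (Fin d) K) (RF K d) (MvPolynomial.C a) :=
  IsScalarTower.algebraMap_apply K (MvPolynomial (Fin d) K) (RF K d) a

end ext

/-- Proof: as `exists_semi_ext` in nr/Semi.lean (copy with its private lemmas, prefix `Act_`; there the
injectivity of `β` is not used), for the action `β.comp p` of `G'` on `K(x)` over `α.comp p` and the
action `α'` on `E`: coefficients `c x i j ∈ K` with `β (p x) (xv K i) = ∑ c x i j * xv K j`; it gives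
`γ : G' →* (RF E d ≃+* RF E d)` (or over `k`) with `γ x (algebraMap a) = algebraMap (α' x a)` and
`γ x (xv E i) = ∑ algebraMap K (RF E d) (c x i j) * xv E j`.  It is linear over `L` because `α' x` is the
identity on `L`.  The last property by `rfh_ext`, `rfh_C`, `rfh_X`.  `inj`: if `β' x = 1` then `α' x = 1`
(on the constants), and `β (p x) = 1` as `rfh` is injective, so `p x = 1` by `hβ.inj`. -/
theorem exists_act {k K L E : Type} [Field k] [Field K] [Field L] [Field E] [Algebra k K]
    [Algebra L E] [Algebra K E] {G : Type} [Group G] {α : G →* (K ≃ₐ[k] K)} {d : ℕ}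
    {β : G →* (RF K d ≃ₐ[k] RF K d)} (hβ : SemiLin α β) {G' : Type} [Group G'] {p : G' →* G}
    {α' : G' →* (E ≃ₐ[L] E)} (h : IsFib α p α') :
    ∃ β' : G' →* (RF E d ≃ₐ[L] RF E d), SemiLin α' β' ∧
      ∀ x z, β' x (rfh (algebraMap K E) d z) = rfh (algebraMap K E) d (β (p x) z) := by
  classical
  obtain ⟨c0, hc0⟩ := hβ.exists_coeff
  obtain ⟨c, hcdef⟩ : ∃ c : G' → Fin d → Fin d → K, c = fun x => c0 (p x) := ⟨_, rfl⟩
  have hc : ∀ x i, β (p x) (xv K i) = ∑ j, algebraMap K (RF K d) (c x i j) * xv K j := by
    intro x i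
    rw [hcdef]
    exact hc0 (p x) i
  have hc1 : ∀ i j, c 1 i j = if i = j then 1 else 0 := by
    intro i j
    have h1 : c 1 i = fun j => if i = j then (1 : K) else 0 := by
      apply semi_uniq
      rw [← hc, map_one, map_one, AlgEquiv.one_apply]
      simp
    rw [h1]
  have hcm : ∀ g h i l, c (g * h) i l = ∑ j, α (p g) (c h i j) * c g j l := by
    intro g h i l
    have h1 : c (g * h) i = fun l => ∑ j, α (p g) (c h i j) * c g j l := by
      apply semi_uniq
      rw [← hc, map_mul, map_mul, AlgEquiv.mul_apply, hc, map_sum]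
      have h2 : ∀ j, β (p g) (algebraMap K (RF K d) (c h i j) * xv K j) =
          ∑ l, algebraMap K (RF K d) (α (p g) (c h i j) * c g j l) * xv K l := by
        intro j
        rw [map_mul, hβ.coeff, hc, Finset.mul_sum]
        refine Finset.sum_congr rfl fun l _ => ?_
        rw [map_mul]
        ring
      rw [Finset.sum_congr rfl fun j _ => h2 j, Finset.sum_comm]
      refine Finset.sum_congr rfl fun l _ => ?_
      rw [map_sum, Finset.sum_mul]
    rw [h1]
  have hε : ∀ g a, α' g (algebraMap K E a) = algebraMap K E (α (p g) a) := h.comp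
  let inst0 : MulSemiringAction G' (MvPolynomial (Fin d) E) :=
    { smul := fun g f => Act_pol α' c g f
      one_smul := fun f => by
        change Act_pol α' c 1 f = f
        rw [Act_one α' c hc1, RingHom.id_apply]
      mul_smul := fun g h f => by
        change Act_pol α' c (g * h) f = Act_pol α' c g (Act_pol α' c h f)
        rw [Act_mul (fun g a => α (p g) a) α' hε c hcm, RingHom.comp_apply]
      smul_zero := fun g => map_zero (Act_pol α' c g)
      smul_add := fun g => map_add (Act_pol α' c g)
      smul_one := fun g => map_one (Act_pol α' c g)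
      smul_mul := fun g => map_mul (Act_pol α' c g) }
  let inst1 : MulSemiringAction G' (RF E d) :=
    IsFractionRing.mulSemiringAction G' (MvPolynomial (Fin d) E) (RF E d)
  have hpol : ∀ (g : G') (f : MvPolynomial (Fin d) E),
      g • (algebraMap (MvPolynomial (Fin d) E) (RF E d) f) =
        algebraMap (MvPolynomial (Fin d) E) (RF E d) (Act_pol α' c g f) := by
    intro g f
    change IsFractionRing.ringEquivOfRingEquiv
      (MulSemiringAction.toRingEquiv G' (MvPolynomial (Fin d) E) g) _ = _
    rw [IsFractionRing.ringEquivOfRingEquiv_algebraMap]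
    rfl
  have hE : ∀ (g : G') (a : E), g • algebraMap E (RF E d) a = algebraMap E (RF E d) (α' g a) := by
    intro g a
    rw [Act_alg, hpol, Act_C, Act_alg]
  have hX : ∀ (g : G') (i : Fin d), g • (xv E i : RF E d) =
      ∑ j, algebraMap E (RF E d) (algebraMap K E (c g i j)) * xv E j := by
    intro g i
    unfold xv
    rw [hpol, Act_X, map_sum]
    refine Finset.sum_congr rfl fun j _ => ?_
    rw [map_mul, Act_alg]
  have hk : ∀ (g : G') (b : L), g • algebraMap L (RF E d) b = algebraMap L (RF E d) b := by
    intro g b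
    rw [IsScalarTower.algebraMap_apply L E (RF E d), hE, AlgEquiv.commutes]
  have : SMulCommClass G' L (RF E d) := ⟨fun g b x => by
    rw [Algebra.smul_def, Algebra.smul_def, smul_mul', hk]⟩
  obtain ⟨β', hβ'⟩ : ∃ β' : G' →* (RF E d ≃ₐ[L] RF E d), ∀ g z, β' g z = g • z :=
    ⟨MulSemiringAction.toAlgAut G' L (RF E d), fun g z => rfl⟩
  have hlast : ∀ x z, β' x (rfh (algebraMap K E) d z) = rfh (algebraMap K E) d (β (p x) z) := by
    intro x
    have h1 : ((β' x : RF E d ≃ₐ[L] RF E d) : RF E d →+* RF E d).comp (rfh (algebraMap K E) d) =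
        (rfh (algebraMap K E) d).comp ((β (p x) : RF K d ≃ₐ[k] RF K d) : RF K d →+* RF K d) := by
      refine rfh_ext (fun a => ?_) (fun i => ?_)
      · rw [RingHom.comp_apply, RingHom.comp_apply, rfh_C]
        change β' x _ = rfh (algebraMap K E) d (β (p x) _)
        rw [hβ', hE, hβ.coeff, rfh_C, hε]
      · rw [RingHom.comp_apply, RingHom.comp_apply, rfh_X]
        change β' x _ = rfh (algebraMap K E) d (β (p x) _)
        rw [hβ', hX, hc, map_sum]
        refine Finset.sum_congr rfl fun j _ => ?_
        rw [map_mul, rfh_C, rfh_X]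
    intro z
    exact congrArg (fun f => f z) h1
  refine ⟨β', ⟨fun g a => ?_, fun g i => ?_, ?_⟩, hlast⟩
  · rw [hβ', hE]
  · rw [hβ', hX]
    refine Submodule.sum_mem _ fun j _ => ?_
    rw [← Algebra.smul_def]
    exact Submodule.smul_mem _ _ (Submodule.subset_span ⟨j, rfl⟩)
  · rw [injective_iff_map_eq_one]
    intro x hx
    have h1 : α' x = 1 := by
      refine AlgEquiv.ext fun a => ?_
      have h2 : β' x (algebraMap E (RF E d) a) = algebraMap E (RF E d) a := by
        rw [hx, AlgEquiv.one_apply]
      rw [hβ', hE] at h2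
      exact (algebraMap E (RF E d)).injective h2
    have h2 : p x = 1 := by
      apply hβ.inj
      rw [map_one]
      refine AlgEquiv.ext fun z => ?_
      apply (rfh (algebraMap K E) d).injective
      rw [← hlast, hx]
      rfl
    exact h.inj x h2 h1

end NF83
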