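import Mathlib

/-! A finite Galois extension containing two given extensions. -/

set_option autoImplicit false

namespace NF83

/-- Proof: embed `K` and `L` into `AlgebraicClosure k` (`IsAlgClosed.lift`), `E` = the normal closure in
it (`IntermediateField.normalClosure`) of the sup of the two images (finite-dimensional over `k`, so is
the normal closure: `normalClosure.is_finiteDimensional`). -/
theorem exists_common (k K L : Type) [Field k] [CharZero k] [Field K] [Field L] [Algebra k K]
    [Algebra k L] [FiniteDimensional k K] [FiniteDimensional k L] :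
    ∃ (E : Type) (_ : Field E) (_ : Algebra k E) (_ : Algebra K E) (_ : Algebra L E),
      IsScalarTower k K E ∧ IsScalarTower k L E ∧ FiniteDimensional k E ∧ IsGalois k E := by
  let φK : K →ₐ[k] AlgebraicClosure k := IsAlgClosed.lift
  let φL : L →ₐ[k] AlgebraicClosure k := IsAlgClosed.lift
  let M : IntermediateField k (AlgebraicClosure k) := φK.fieldRange ⊔ φL.fieldRange
  have hK : FiniteDimensional k φK.fieldRange :=
    Module.Finite.equiv (AlgEquiv.ofInjectiveField φK).toLinearEquiv
  have hL : FiniteDimensional k φL.fieldRange :=
    Module.Finite.equiv (AlgEquiv.ofInjectiveField φL).toLinearEquiv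
  have hM : FiniteDimensional k M := IntermediateField.finiteDimensional_sup _ _
  let N : IntermediateField k (AlgebraicClosure k) :=
    IntermediateField.normalClosure k M (AlgebraicClosure k)
  have hMN : M ≤ N := IntermediateField.le_normalClosure M
  have hN : FiniteDimensional k N := normalClosure.is_finiteDimensional k M (AlgebraicClosure k)
  have hNn : Normal k N := normalClosure.normal k M (AlgebraicClosure k)
  have eK : ∀ x, φK x ∈ N := fun x => hMN (le_sup_left (a := φK.fieldRange) ⟨x, rfl⟩)
  have eL : ∀ x, φL x ∈ N := fun x => hMN (le_sup_right (a := φK.fieldRange) ⟨x, rfl⟩)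
  let ψK : K →ₐ[k] N := φK.codRestrict N.toSubalgebra eK
  let ψL : L →ₐ[k] N := φL.codRestrict N.toSubalgebra eL
  refine ⟨N, inferInstance, inferInstance, ψK.toRingHom.toAlgebra, ψL.toRingHom.toAlgebra,
    ?_, ?_, hN, ?_⟩
  · letI := ψK.toRingHom.toAlgebra
    exact IsScalarTower.of_algebraMap_eq fun x => (ψK.commutes x).symm
  · letI := ψL.toRingHom.toAlgebra
    exact IsScalarTower.of_algebraMap_eq fun x => (ψL.commutes x).symm
  · exact { to_isSeparable := inferInstance, to_normal := hNn }

end NF83
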