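import Pool.Agent.H.MP_83e36b_nt.bc.Rfh

/-! Galois descent for rational functions. -/

set_option autoImplicit false

open CM83 NR83

namespace NF83

private theorem Desc_poly {K E : Type} [Field K] [Field E] [Algebra K E] [FiniteDimensional K E]
    [IsGalois K E] {d : ℕ} (p : MvPolynomial (Fin d) E)
    (h : ∀ σ : E ≃ₐ[K] E, MvPolynomial.map ((σ : E ≃ₐ[K] E) : E →+* E) p = p) :
    ∃ q : MvPolynomial (Fin d) K, MvPolynomial.map (algebraMap K E) q = p := by
  have h1 : p ∈ Set.range (MvPolynomial.map (σ := Fin d) (algebraMap K E)) := by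
    rw [MvPolynomial.mem_range_map_iff_coeffs_subset]
    intro c hc
    obtain ⟨m, _, rfl⟩ := MvPolynomial.mem_coeffs_iff.1 (Finset.mem_coe.1 hc)
    have h2 : p.coeff m ∈ (⊥ : IntermediateField K E) := by
      rw [IsGalois.mem_bot_iff_fixed]
      intro σ
      have h3 := congrArg (MvPolynomial.coeff m) (h σ)
      rw [MvPolynomial.coeff_map] at h3
      exact h3
    obtain ⟨a, ha⟩ := IntermediateField.mem_bot.1 h2
    exact ⟨a, ha⟩
  obtain ⟨q, hq⟩ := h1
  exact ⟨q, hq⟩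

/-- A rational function over `E` which is fixed by `Gal(E/K)`, acting on the coefficients, is a rational
function over `K`.  Proof: `z = P / Q` with `P`, `Q` polynomials over `E`; multiply both by
`∏_{σ ≠ 1} σ(Q)`: then `Q` is fixed by all `σ` (`MvPolynomial.map σ`), and so is `P = z Q`; their
coefficients are fixed by all `σ`, so they lie in `K` (`IsGalois.mem_bot_iff_fixed` or
`IsGalois.of_fixedField_eq_bot`..): `P = MvPolynomial.map (algebraMap K E) P₀`, `Q` likewise. -/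
theorem rfh_desc {K E : Type} [Field K] [Field E] [Algebra K E] [FiniteDimensional K E]
    [IsGalois K E] {d : ℕ} (z : RF E d)
    (h : ∀ σ : E ≃ₐ[K] E, rfh ((σ : E ≃ₐ[K] E) : E →+* E) d z = z) :
    ∃ y : RF K d, rfh (algebraMap K E) d y = z := by
  classical
  obtain ⟨P, Q, hQ, hz⟩ := IsFractionRing.div_surjective (A := MvPolynomial (Fin d) E) z
  have hQ0 : Q ≠ 0 := nonZeroDivisors.ne_zero hQ
  have inj : Function.Injective (algebraMap (MvPolynomial (Fin d) E) (RF E d)) :=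
    IsFractionRing.injective _ _
  have minj : ∀ σ : E ≃ₐ[K] E, Function.Injective
      (MvPolynomial.map (σ := Fin d) ((σ : E ≃ₐ[K] E) : E →+* E)) := fun σ =>
    MvPolynomial.map_injective _ (RingHom.injective _)
  obtain ⟨N, hN⟩ : ∃ N, N = ∏ σ : E ≃ₐ[K] E,
    MvPolynomial.map (σ := Fin d) ((σ : E ≃ₐ[K] E) : E →+* E) Q := ⟨_, rfl⟩
  have hNf : ∀ τ : E ≃ₐ[K] E, MvPolynomial.map ((τ : E ≃ₐ[K] E) : E →+* E) N = N := by
    intro τ
    rw [hN, map_prod]
    refine Fintype.prod_equiv (Equiv.mulLeft τ) _ _ fun σ => ?_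
    rw [MvPolynomial.map_map]
    rfl
  have hN0 : N ≠ 0 := by
    rw [hN, Finset.prod_ne_zero_iff]
    intro σ _ h0
    exact hQ0 (minj σ (by rw [h0, map_zero]))
  have hQN : Q ∣ N := by
    rw [hN]
    have h1 := Finset.dvd_prod_of_mem (fun σ : E ≃ₐ[K] E =>
      MvPolynomial.map (σ := Fin d) ((σ : E ≃ₐ[K] E) : E →+* E) Q)
      (Finset.mem_univ (1 : E ≃ₐ[K] E))
    have h2 : MvPolynomial.map (σ := Fin d) (((1 : E ≃ₐ[K] E) : E ≃ₐ[K] E) : E →+* E) Q = Q := by
      have h3 : (((1 : E ≃ₐ[K] E) : E ≃ₐ[K] E) : E →+* E) = RingHom.id E := rfl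
      rw [h3, MvPolynomial.map_id]
    simp only [h2] at h1
    exact h1
  obtain ⟨R, hR⟩ := hQN
  have hQa : algebraMap (MvPolynomial (Fin d) E) (RF E d) Q ≠ 0 := fun h0 =>
    hQ0 (inj (by rw [h0, map_zero]))
  have hNa : algebraMap (MvPolynomial (Fin d) E) (RF E d) N ≠ 0 := fun h0 =>
    hN0 (inj (by rw [h0, map_zero]))
  have hP : algebraMap (MvPolynomial (Fin d) E) (RF E d) (P * R) =
      z * algebraMap (MvPolynomial (Fin d) E) (RF E d) N := by
    rw [hR, map_mul, map_mul, ← hz]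
    field_simp
  have hPf : ∀ τ : E ≃ₐ[K] E,
      MvPolynomial.map ((τ : E ≃ₐ[K] E) : E →+* E) (P * R) = P * R := by
    intro τ
    apply inj
    rw [← rfh_alg, hP, map_mul, h, rfh_alg, hNf]
  obtain ⟨N₀, hN₀⟩ := Desc_poly N hNf
  obtain ⟨P₀, hP₀⟩ := Desc_poly (P * R) hPf
  refine ⟨algebraMap _ _ P₀ / algebraMap _ _ N₀, ?_⟩
  rw [map_div₀, rfh_alg, rfh_alg, hN₀, hP₀, hP, mul_div_assoc, div_self hNa, mul_one]

end NF83
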