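import Pool.Agent.H.MP_83e36b_nt.bc.Act

/-! Linear disjointness. -/

set_option autoImplicit false

open CM83 NR83

namespace NF83

/-- a functional which is one on one vector of a linearly independent family and zero on the others,
written with the trace form -/
private theorem Dis_dual {k E : Type} [Field k] [CharZero k] [Field E] [Algebra k E]
    [FiniteDimensional k E] {n : ℕ} {b : Fin n → E}
    (hb : LinearIndependent k b) (l : Fin n) :
    ∃ e : E, ∀ i, Algebra.trace k E (b i * e) = if i = l then 1 else 0 := by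
  obtain ⟨φ, hφ⟩ := LinearMap.exists_extend ((Module.Basis.span hb).coord l)
  have hn := traceForm_nondegenerate k E
  refine ⟨((Algebra.traceForm k E).toDual hn).symm φ, fun i => ?_⟩
  have h1 : Algebra.traceForm k E (((Algebra.traceForm k E).toDual hn).symm φ) (b i) = φ (b i) :=
    LinearMap.BilinForm.apply_toDual_symm_apply φ (b i)
  rw [Algebra.traceForm_apply, mul_comm] at h1
  rw [h1]
  have h2 := congrArg (fun g => g (Module.Basis.span hb i)) hφ
  have h3 : ((Submodule.span k (Set.range b)).subtype (Module.Basis.span hb i)) = b i := by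
    rw [Submodule.subtype_apply]
    exact congrArg Subtype.val (Module.Basis.span_apply hb i)
  simp only [LinearMap.comp_apply] at h2
  rw [h3] at h2
  rw [h2, Module.Basis.coord_apply, Module.Basis.repr_self, Finsupp.single_apply]

/-- elements of `E` which are linearly independent over `k` are linearly independent over the field of
rational functions with coefficients in the invariants of `G`.
Proof: `G₁ = Fib k E α`, `β₁` from `exists_act` for `L = k`.  Let `f : fixF β →+* RF E d` be
`rfh (algebraMap K E) d` restricted to the invariants and `j = rfh f r`.  For `x ∈ G₁` let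
`Θ = rfh (β₁ x) r : W →+* W`, `W = RF (RF E d) r`: `Θ (j c) = j c` (`rfh_comp`, `β₁ x ∘ f = f`), and `Θ`
maps the constant `e ∈ E` to `α₁ x e`.  Every `σ ∈ Gal(E/k)` is some `α₁ x` (`hα`: there is `g` with
`α g = σ|_K`, `AlgEquiv.restrictNormal`).  First let `b` be a basis of `E / k`, `b'` the dual basis for the
trace form (`traceForm_nondegenerate`, `LinearMap.BilinForm.dualBasis`): apply the `Θ` to
`∑ j (c i) (b i b' l) = 0` and add over all `σ`: `∑ j (c i) Tr(b i b' l) = 0`
(`trace_eq_sum_automorphisms`), so `j (c l) = 0`, `c l = 0`.  A linearly independent family is part of a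
basis (`Module.Basis.extend`, or `Basis.mk`..). -/
theorem dis_E {k K E : Type} [Field k] [CharZero k] [Field K] [Field E] [Algebra k K]
    [Algebra k E] [Algebra K E] [IsScalarTower k K E] [FiniteDimensional k K]
    [FiniteDimensional k E] [IsGalois k K] [IsGalois k E] {G : Type} [Group G] [Finite G]
    {α : G →* (K ≃ₐ[k] K)} (hα : Function.Surjective α) {d : ℕ}
    {β : G →* (RF K d ≃ₐ[k] RF K d)} (hβ : SemiLin α β) {r : ℕ} {n : ℕ} {b : Fin n → E}
    (hb : LinearIndependent k b) (c : Fin n → RF (fixF β) r)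
    (h : ∑ i, rfh ((rfh (algebraMap K E) d).comp (algebraMap (fixF β) (RF K d))) r (c i) *
      algebraMap (RF E d) (RF (RF E d) r) (algebraMap E (RF E d) (b i)) = 0) (i : Fin n) :
    c i = 0 := by
  classical
  obtain ⟨β₁, hβ₁, hcomp⟩ := exists_act (L := k) hβ (isFib (L := k) (E := E) α)
  obtain ⟨e, he⟩ := Dis_dual hb i
  -- the homomorphism of the constants
  let A : E →+* RF (RF E d) r := (algebraMap (RF E d) (RF (RF E d) r)).comp (algebraMap E (RF E d))
  have hA : ∀ a, A a = algebraMap (RF E d) (RF (RF E d) r) (algebraMap E (RF E d) a) := fun _ => rfl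
  set f : fixF β →+* RF E d := (rfh (algebraMap K E) d).comp (algebraMap (fixF β) (RF K d)) with hf
  let Θ : Fib k E α → (RF (RF E d) r →+* RF (RF E d) r) := fun x =>
    rfh ((β₁ x : RF E d ≃ₐ[k] RF E d) : RF E d →+* RF E d) r
  have h1 : ∀ x z, Θ x (rfh f r z) = rfh f r z := by
    intro x z
    have h2 : (((β₁ x : RF E d ≃ₐ[k] RF E d) : RF E d →+* RF E d)).comp f = f := by
      ext y
      have h3 := hcomp x (algebraMap (fixF β) (RF K d) y)
      have h4 : β (fibG k E α x) (algebraMap (fixF β) (RF K d) y) =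
          algebraMap (fixF β) (RF K d) y := (mem_fixF β _).1 y.2 _
      rw [h4] at h3
      exact h3
    have h5 := rfh_comp f ((β₁ x : RF E d ≃ₐ[k] RF E d) : RF E d →+* RF E d) r
    rw [h2] at h5
    exact (RingHom.congr_fun h5 z).symm
  have h2 : ∀ x a, Θ x (A a) = A (fibA k E α x a) := by
    intro x a
    rw [hA, hA]
    have h3 := rfh_C ((β₁ x : RF E d ≃ₐ[k] RF E d) : RF E d →+* RF E d) (d := r)
      (algebraMap E (RF E d) a)
    have h4 : ((β₁ x : RF E d ≃ₐ[k] RF E d) : RF E d →+* RF E d) (algebraMap E (RF E d) a) =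
      algebraMap E (RF E d) (fibA k E α x a) := hβ₁.coeff x a
    rw [h4] at h3
    exact h3
  have hsur : ∀ σ : E ≃ₐ[k] E, ∃ x : Fib k E α, fibA k E α x = σ := by
    intro σ
    obtain ⟨g, hg⟩ := hα (σ.restrictNormal K)
    refine ⟨⟨(g, σ), fun a => ?_⟩, rfl⟩
    show σ (algebraMap K E a) = algebraMap K E (α g a)
    rw [hg]
    exact (AlgEquiv.restrictNormal_commutes σ K a).symm
  choose x hx using hsur
  have h3 : ∀ σ : E ≃ₐ[k] E, ∑ l, rfh f r (c l) * A (σ (b l * e)) = 0 := by
    intro σ
    have h4 : (∑ l, rfh f r (c l) * A (b l)) * A e = 0 := by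
      have : ∑ l, rfh f r (c l) * A (b l) = 0 := h
      rw [this, zero_mul]
    have h5 := congrArg (Θ (x σ)) h4
    rw [map_zero, Finset.sum_mul, map_sum] at h5
    rw [← h5]
    refine Finset.sum_congr rfl fun l _ => ?_
    rw [mul_assoc, ← map_mul A, map_mul (Θ (x σ)), h1, h2, hx]
  have h4 : ∑ l, rfh f r (c l) * A (∑ σ : E ≃ₐ[k] E, σ (b l * e)) = 0 := by
    have h5 : ∑ σ : E ≃ₐ[k] E, ∑ l, rfh f r (c l) * A (σ (b l * e)) = 0 :=
      Finset.sum_eq_zero fun σ _ => h3 σ
    rw [Finset.sum_comm] at h5
    rw [← h5]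
    refine Finset.sum_congr rfl fun l _ => ?_
    rw [map_sum, Finset.mul_sum]
  have h5 : ∀ l, A (∑ σ : E ≃ₐ[k] E, σ (b l * e)) = if l = i then 1 else 0 := by
    intro l
    rw [← trace_eq_sum_automorphisms, he]
    split_ifs
    · rw [map_one, map_one]
    · rw [map_zero, map_zero]
  simp only [h5, mul_ite, mul_one, mul_zero, Finset.sum_ite_eq', Finset.mem_univ, if_true] at h4
  exact (map_eq_zero _).1 h4

end NF83
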