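import Pool.Agent.H.MP_83e36b_nt.bc.FinL
import Pool.Agent.H.MP_83e36b_nt.tn.End

/-! The main theorem for the points over all finite extensions. -/

set_option autoImplicit false

open Polynomial NumberField IsDedekindDomain

namespace NF83

open CM83 NR83 WA83 DC83

/-- Main theorem, for the points over a number field `L` over `k`. -/
theorem main_L {k : Type} [Field k] [NumberField k] {K : Type} [Field K] [Algebra k K]
    {G : Type} [Group G] [Finite G] (α : G →* (K ≃ₐ[k] K)) (hfix : fixF α = ⊥) (hα : UTower α)
    {d : ℕ} (β : G →* (RF K d ≃ₐ[k] RF K d)) (hβ : SemiLin α β)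
    {m : ℕ} {f g : (MvPolynomial (Fin m) k)[X]} {F : Type} [Field F] [Algebra k F]
    {ξ : Fin m → F} {η : F} (h : Generic f F ξ η) (hg : evP (algebraMap k F) ξ η g ≠ 0)
    (hF : StablyIso k F (fixF β)) (L : Type) [Field L] [NumberField L] [Algebra k L] :
    WAFin L (polL k L f) (polL k L g) :=
  main_L_of (fun α h1 h2 => main_utower α h1 h2) α hfix hα β hβ h hg hF L

end NF83
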