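import Pool.Agent.H.MP_83e36b_nt.bc.FDef
import Pool.Agent.H.MP_83e36b_nt.nr.TDefs
import Pool.Agent.H.MP_83e36b_nt.nr.Grp1

/-! Transfer of series and towers to the fibre product. -/

set_option autoImplicit false

open NR83 CM83

namespace NF83

/-- the homomorphism `u` maps the normal subgroup `N'` isomorphically onto the normal subgroup `N` -/
structure NIso {G G' : Type} [Group G] [Group G'] (N : Subgroup G) (N' : Subgroup G')
    (u : G' →* G) : Prop where
  map : ∀ x ∈ N', u x ∈ N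
  inj : ∀ x ∈ N', u x = 1 → x = 1
  surj : ∀ g ∈ N, ∃ x ∈ N', u x = g

/-- Proof: `AltSeries.congr` (nr/Grp1.lean) for the isomorphism of `N'` and `N` given by `u`. -/
theorem AltSeries.pull {G G' : Type} [Group G] [Group G'] {N : Subgroup G} {N' : Subgroup G'}
    {u : G' →* G} (h : NIso N N' u) (hN : AltSeries N) : AltSeries N' := by
  let f : N' →* N := (u.comp N'.subtype).codRestrict N (fun x => h.map x.1 x.2)
  have hf : ∀ x : N', ((f x : N) : G) = u x.1 := fun _ => rfl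
  have hinj : Function.Injective f := by
    rw [injective_iff_map_eq_one]
    intro x hx
    apply Subtype.ext
    apply h.inj x.1 x.2
    rw [← hf, hx]
    rfl
  have hsurj : Function.Surjective f := by
    rintro ⟨g, hg⟩
    obtain ⟨x, hx, hxg⟩ := h.surj g hg
    exact ⟨⟨x, hx⟩, Subtype.ext hxg⟩
  exact hN.congr (MulEquiv.ofBijective f ⟨hinj, hsurj⟩).symm

/-- Proof: with the action of `G'` on `I` by `u` and `fun g j => M (u g) j`. -/
theorem Coc.pull {G G' : Type} [Group G] [Group G'] {N : Subgroup G} {N' : Subgroup G'}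
    {u : G' →* G} (h : NIso N N' u) {I : Type} [MulAction G I] {m : ℕ}
    {A : Matrix (Fin m) (Fin m) ℤ} {M : G → I → Matrix (Fin m) (Fin m) ℤ} (hM : Coc N I A M) :
    @Coc G' _ N' I (MulAction.compHom I u) m A (fun g j => M (u g) j) := by
  letI := MulAction.compHom I u
  refine ⟨fun j => ?_, fun g g' j => ?_, fun g j => hM.weyl (u g) j,
    fun g hg j => hM.fix (u g) (h.map g hg) j, fun R hR => ?_, fun g hg hj => ?_⟩
  · rw [map_one]
    exact hM.one j
  · rw [map_mul]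
    exact hM.mul (u g) (u g') j
  · obtain ⟨g, hg, hgR⟩ := hM.rot R hR
    obtain ⟨x, hx, rfl⟩ := h.surj g hg
    exact ⟨x, hx, hgR⟩
  · exact h.inj g hg (hM.inj (u g) (h.map g hg) hj)

private theorem FTw_quot {G G' : Type} [Group G] [Group G'] {N N₁ : Subgroup G} [N₁.Normal]
    {N' : Subgroup G'} [N'.Normal] {u : G' →* G} (h : NIso N N' u) (hle : N₁ ≤ N) :
    ∃ (N₁' : Subgroup G') (_ : N₁'.Normal), N₁' ≤ N' ∧ NIso N₁ N₁' u ∧
      (N'.map (QuotientGroup.mk' N₁')).Normal ∧ ∃ u' : G' ⧸ N₁' →* G ⧸ N₁,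
        NIso (N.map (QuotientGroup.mk' N₁)) (N'.map (QuotientGroup.mk' N₁')) u' := by
  have hn : (N₁.comap u).Normal := inferInstance
  have hn' : (N' ⊓ N₁.comap u).Normal := inferInstance
  refine ⟨N' ⊓ N₁.comap u, hn', inf_le_left, ⟨fun x hx => ?_, fun x hx => ?_, fun g hg => ?_⟩,
    ?_, QuotientGroup.map _ N₁ u inf_le_right, ⟨?_, ?_, ?_⟩⟩
  · exact (Subgroup.mem_inf.1 hx).2
  · exact h.inj x (Subgroup.mem_inf.1 hx).1
  · obtain ⟨x, hx, hxg⟩ := h.surj g (hle hg)
    refine ⟨x, Subgroup.mem_inf.2 ⟨hx, ?_⟩, hxg⟩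
    rw [Subgroup.mem_comap, hxg]
    exact hg
  · exact Subgroup.Normal.map inferInstance _ (QuotientGroup.mk'_surjective _)
  · rintro _ ⟨x, hx, rfl⟩
    exact ⟨u x, h.map x hx, rfl⟩
  · rintro _ ⟨x, hx, rfl⟩ h1
    have h2 : (QuotientGroup.mk (u x) : G ⧸ N₁) = 1 := h1
    rw [QuotientGroup.eq_one_iff] at h2
    refine (QuotientGroup.eq_one_iff _).2 (Subgroup.mem_inf.2 ⟨hx, ?_⟩)
    rw [Subgroup.mem_comap]
    exact h2
  · rintro _ ⟨g, hg, rfl⟩
    obtain ⟨x, hx, rfl⟩ := h.surj g hg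
    exact ⟨QuotientGroup.mk' _ x, ⟨x, hx, rfl⟩, rfl⟩

/-- Proof: induction on `hT` (generalizing `G'`, `N'`, `u`).  `bot`: `N' = ⊥`, `Tower.bot`.  `alt`, `weyl`:
`N₁' = N' ⊓ N₁.comap u` (normal in `G'`), `NIso N₁ N₁' u`, `AltSeries.pull`, `Coc.pull`;
`u' : G' ⧸ N₁' →* G ⧸ N₁` (`QuotientGroup.map`) and `NIso (N.map mk) (N'.map mk) u'`. -/
theorem Tower.pull {G : Type} [Group G] {N : Subgroup G} (hT : Tower G N) {G' : Type} [Group G']
    {N' : Subgroup G'} [N'.Normal] {u : G' →* G} (h : NIso N N' u) : Tower G' N' := by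
  induction hT generalizing G' with
  | bot G =>
    have h0 : N' = ⊥ := by
      rw [Subgroup.eq_bot_iff_forall]
      intro x hx
      exact h.inj x hx (Subgroup.mem_bot.1 (h.map x hx))
    rw [h0]
    exact Tower.bot G'
  | alt G N N₁ hle hA hT ih =>
    obtain ⟨N₁', hn, hle', h1, hn', u', h2⟩ := FTw_quot h hle
    exact Tower.alt G' N' N₁' hle' (AltSeries.pull h1 hA) (ih h2)
  | weyl G N N₁ hle I m A hA M hM hT ih =>
    obtain ⟨N₁', hn, hle', h1, hn', u', h2⟩ := FTw_quot h hle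
    exact @Tower.weyl G' _ N' N₁' hn hle' I _ (MulAction.compHom I u) m A hA
      (fun g j => M (u g) j) (Coc.pull h1 hM) (ih h2)

end NF83
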