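import Pool.Agent.H.MP_83e36b_nt.bc.FTr
import Pool.Agent.H.MP_83e36b_nt.bc.FTw
import Pool.Agent.H.MP_83e36b_nt.tn.TDefN

/-! Base change of towers. -/

set_option autoImplicit false

open NR83 CM83 DC83

namespace NF83

section
variable {k K L E : Type} [Field k] [Field K] [Field L] [Field E] [Algebra k K] [Algebra L E]
  [Algebra K E]

private theorem FBase_isFib {G : Type} [Group G] (α : G →* (K ≃ₐ[k] K)) :
    IsFib α (fibG L E α) (fibA L E α) := by
  refine ⟨fun x a => x.2 a, fun x h1 h2 => Subtype.ext (Prod.ext h1 h2), fun g σ h => ?_⟩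
  exact ⟨⟨(g, σ), h⟩, rfl, rfl⟩

private theorem FBase_qf {G A G' : Type} [Group G] [Group A] [Group G'] {γ : A →* (K ≃ₐ[k] K)}
    {q : G →* A} {p : G' →* G} {α' : G' →* (E ≃ₐ[L] E)} (h : IsFib (γ.comp q) p α') :
    ∃ q' : G' →* Fib L E γ, (fibA L E γ).comp q' = α' ∧ (∀ x, fibG L E γ (q' x) = q (p x)) ∧
      (Function.Surjective q → Function.Surjective q') ∧ KIso q q' p := by
  let q' : G' →* Fib L E γ :=
    { toFun := fun x => ⟨(q (p x), α' x), fun a => h.comp x a⟩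
      map_one' := by
        refine Subtype.ext (Prod.ext ?_ ?_)
        · show q (p 1) = 1
          rw [map_one, map_one]
        · show α' 1 = 1
          rw [map_one]
      map_mul' := fun x y => by
        refine Subtype.ext (Prod.ext ?_ ?_)
        · show q (p (x * y)) = q (p x) * q (p y)
          rw [map_mul, map_mul]
        · show α' (x * y) = α' x * α' y
          rw [map_mul] }
  have hq1 : ∀ x, q' x = 1 ↔ q (p x) = 1 ∧ α' x = 1 := by
    intro x
    constructor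
    · intro hx
      have h1 : ((q' x : Fib L E γ) : A × (E ≃ₐ[L] E)) = 1 := by rw [hx]; rfl
      exact ⟨congrArg Prod.fst h1, congrArg Prod.snd h1⟩
    · rintro ⟨h1, h2⟩
      exact Subtype.ext (Prod.ext h1 h2)
  refine ⟨q', MonoidHom.ext fun x => rfl, fun x => rfl, ?_, ?_, ?_, ?_⟩
  · rintro hq ⟨⟨a, σ⟩, ha⟩
    obtain ⟨g, rfl⟩ := hq a
    obtain ⟨x, rfl, rfl⟩ := h.surj g σ ha
    exact ⟨x, rfl⟩
  · exact fun x hx => ((hq1 x).1 hx).1
  · exact fun x hx hp => h.inj x hp ((hq1 x).1 hx).2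
  · intro g hg
    obtain ⟨x, hx1, hx2⟩ := h.surj g 1 (fun a => by
      show algebraMap K E a = algebraMap K E (γ (q g) a)
      rw [hg, map_one]
      rfl)
    refine ⟨x, (hq1 x).2 ⟨?_, hx2⟩, hx1⟩
    rw [hx1, hg]

private theorem FBase_sf {G A G' : Type} [Group G] [Group A] [Group G'] {γ : A →* (K ≃ₐ[k] K)}
    {q : G →* A} {p : G' →* G} {α' : G' →* (E ≃ₐ[L] E)} (h : IsFib (γ.comp q) p α')
    {q' : G' →* Fib L E γ} (h1 : (fibA L E γ).comp q' = α')
    (h2 : ∀ x, fibG L E γ (q' x) = q (p x)) {s : A →* G} (hs : ∀ a, q (s a) = a) :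
    ∃ s' : Fib L E γ →* G', ∀ y, q' (s' y) = y := by
  have huniq : ∀ x x' : G', p x = p x' → α' x = α' x' → x = x' := by
    intro x x' e1 e2
    have e3 := h.inj (x * x'⁻¹) (by rw [map_mul, map_inv, e1, mul_inv_cancel])
      (by rw [map_mul, map_inv, e2, mul_inv_cancel])
    exact mul_inv_eq_one.1 e3
  have hex : ∀ y : Fib L E γ, ∃ x : G', p x = s (fibG L E γ y) ∧ α' x = fibA L E γ y := by
    intro y
    refine h.surj _ _ fun a => ?_
    show (y : A × (E ≃ₐ[L] E)).2 (algebraMap K E a) =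
      algebraMap K E (γ (q (s (fibG L E γ y))) a)
    rw [hs]
    exact y.2 a
  choose f hf1 hf2 using hex
  refine ⟨{ toFun := f, map_one' := ?_, map_mul' := ?_ }, ?_⟩
  · refine huniq _ _ ?_ ?_
    · rw [hf1, map_one, map_one, map_one]
    · rw [hf2, map_one, map_one]
  · intro y z
    refine huniq _ _ ?_ ?_
    · rw [hf1, map_mul, map_mul, map_mul, hf1, hf1]
    · rw [hf2, map_mul, map_mul, hf2, hf2]
  · intro y
    show q' (f y) = y
    refine Subtype.ext (Prod.ext ?_ ?_)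
    · show fibG L E γ (q' (f y)) = fibG L E γ y
      rw [h2, hf1, hs]
    · show fibA L E γ (q' (f y)) = fibA L E γ y
      exact (DFunLike.congr_fun h1 (f y)).trans (hf2 y)

end

/-- Proof: induction on `hα` (generalizing `G'`, `p`, `α'`).  `gal`: `α'` is bijective (`hres`).  The
steps: `exists_qf`, the induction hypothesis for `Fib L E γ` (`isFib γ`), `α' = (fibA L E γ).comp q'`, and
`SymKer.pull`, `AltSeries.pull`/`Tower.pull` (`NIso q.ker q'.ker p` from `KIso`), `KerDbl.pull`,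
`KerAlt.pull` with `exists_sf`. -/
theorem UTower.base {k K L E : Type} [Field k] [Field K] [Field L] [Field E] [Algebra k K]
    [Algebra L E] [Algebra K E]
    (hres : ∀ σ : E ≃ₐ[L] E, ∃ τ : K ≃ₐ[k] K, ∀ a, σ (algebraMap K E a) = algebraMap K E (τ a))
    {G : Type} [Group G] {α : G →* (K ≃ₐ[k] K)} (hα : UTower α) {G' : Type} [Group G']
    {p : G' →* G} {α' : G' →* (E ≃ₐ[L] E)} (h : IsFib α p α') : UTower α' := by
  induction hα generalizing G' with
  | @gal G _ α hb =>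
    refine UTower.gal α' ⟨?_, ?_⟩
    · intro x y hxy
      have h1 : α' (x * y⁻¹) = 1 := by rw [map_mul, map_inv, hxy, mul_inv_cancel]
      have h2 : α (p (x * y⁻¹)) = 1 := by
        refine AlgEquiv.ext fun a => ?_
        have h3 := h.comp (x * y⁻¹) a
        rw [h1] at h3
        exact ((algebraMap K E).injective h3).symm
      have h3 : p (x * y⁻¹) = 1 := hb.1 (by rw [h2, map_one])
      exact mul_inv_eq_one.1 (h.inj _ h3 h1)
    · intro σ
      obtain ⟨τ, hτ⟩ := hres σ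
      obtain ⟨g, rfl⟩ := hb.2 τ
      obtain ⟨x, -, hx⟩ := h.surj g σ hτ
      exact ⟨x, hx⟩
  | @sym G A _ _ γ q hq J I _ _ _ _ f hs hγ ih =>
    obtain ⟨q', e1, e2, e3, e4⟩ := FBase_qf h
    rw [← e1]
    exact @UTower.sym L _ E _ _ G' (Fib L E γ) _ _ (fibA L E γ) q' (e3 hq) J I _ _
      (MulAction.compHom J p) (MulAction.compHom I (fibG L E γ)) f
      (SymKer.pull hs (fibG L E γ) e2 e4) (ih (FBase_isFib γ))
  | @alt G A _ _ γ q hq hN hγ ih =>
    obtain ⟨q', e1, e2, e3, e4⟩ := FBase_qf h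
    rw [← e1]
    have hiso : NIso q.ker q'.ker p := by
      refine ⟨fun x hx => ?_, fun x hx hp => ?_, fun g hg => ?_⟩
      · exact MonoidHom.mem_ker.2 (e4.map x (MonoidHom.mem_ker.1 hx))
      · exact e4.inj x (MonoidHom.mem_ker.1 hx) hp
      · obtain ⟨x, hx1, hx2⟩ := e4.surj g (MonoidHom.mem_ker.1 hg)
        exact ⟨x, MonoidHom.mem_ker.2 hx1, hx2⟩
    exact UTower.alt (fibA L E γ) q' (e3 hq)
      (hN.imp (fun hN => AltSeries.pull hiso hN) fun hN => Tower.pull hN hiso) (ih (FBase_isFib γ))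
  | @dbl G A _ _ γ q hq n N hn hN φ hφ hγ ih =>
    obtain ⟨q', e1, e2, e3, e4⟩ := FBase_qf h
    rw [← e1]
    exact UTower.dbl (fibA L E γ) q' (e3 hq) n N hn hN (φ.comp p) (KerDbl.pull hφ e4)
      (ih (FBase_isFib γ))
  | @spl G A _ _ γ q s hs n hn χ π hk hγ ih =>
    obtain ⟨q', e1, e2, e3, e4⟩ := FBase_qf h
    obtain ⟨s', hs'⟩ := FBase_sf h e1 e2 hs
    obtain ⟨χ', hχ'⟩ := KerAlt.pull hk e4
    rw [← e1]
    exact UTower.spl (fibA L E γ) q' s' hs' n hn χ' (π.comp p) hχ' (ih (FBase_isFib γ))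

end NF83
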