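import Pool.Agent.H.MP_83e36b_nt.nr.SDefs

/-! The fibre product of `G` and `Gal(E/L)` over `Gal(K/k)`. -/

set_option autoImplicit false

namespace NF83

variable {k K L E : Type} [Field k] [Field K] [Field L] [Field E] [Algebra k K] [Algebra k L]
  [Algebra k E] [Algebra K E] [Algebra L E]

/-- `G'` is the fibre product of `G` and `Gal(E/L)` over `Gal(K/k)` -/
structure IsFib {G G' : Type} [Group G] [Group G'] (α : G →* (K ≃ₐ[k] K)) (p : G' →* G)
    (α' : G' →* (E ≃ₐ[L] E)) : Prop where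
  comp : ∀ x a, α' x (algebraMap K E a) = algebraMap K E (α (p x) a)
  inj : ∀ x, p x = 1 → α' x = 1 → x = 1
  surj : ∀ g (σ : E ≃ₐ[L] E), (∀ a, σ (algebraMap K E a) = algebraMap K E (α g a)) →
    ∃ x, p x = g ∧ α' x = σ

/-- the fibre product -/
def Fib (L E : Type) [Field L] [Field E] [Algebra K E] [Algebra L E] {G : Type} [Group G]
    (α : G →* (K ≃ₐ[k] K)) : Subgroup (G × (E ≃ₐ[L] E)) where
  carrier := {x | ∀ a : K, x.2 (algebraMap K E a) = algebraMap K E (α x.1 a)}
  one_mem' := fun a => by simp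
  mul_mem' := by
    intro x y hx hy a
    show x.2 (y.2 (algebraMap K E a)) = _
    rw [hy, hx]
    simp
  inv_mem' := by
    intro x hx a
    have h1 := hx ((α x.1)⁻¹ a)
    rw [AlgEquiv.aut_inv, AlgEquiv.apply_symm_apply] at h1
    show x.2⁻¹ _ = _
    rw [← h1, AlgEquiv.aut_inv, AlgEquiv.symm_apply_apply, Prod.fst_inv, map_inv, AlgEquiv.aut_inv]

/-- the projection to `G` -/
def fibG (L E : Type) [Field L] [Field E] [Algebra K E] [Algebra L E] {G : Type} [Group G]
    (α : G →* (K ≃ₐ[k] K)) : Fib L E α →* G := (MonoidHom.fst _ _).comp (Subgroup.subtype _)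

/-- the projection to the Galois group -/
def fibA (L E : Type) [Field L] [Field E] [Algebra K E] [Algebra L E] {G : Type} [Group G]
    (α : G →* (K ≃ₐ[k] K)) : Fib L E α →* (E ≃ₐ[L] E) :=
  (MonoidHom.snd _ _).comp (Subgroup.subtype _)

theorem isFib {G : Type} [Group G] (α : G →* (K ≃ₐ[k] K)) :
    IsFib α (fibG L E α) (fibA L E α) := by
  refine ⟨fun x a => x.2 a, fun x h1 h2 => Subtype.ext (Prod.ext h1 h2), fun g σ h => ?_⟩
  exact ⟨⟨(g, σ), h⟩, rfl, rfl⟩

/-- `p` identifies the kernels of `q'` and `q` -/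
structure KIso {G A G' A' : Type} [Group G] [Group A] [Group G'] [Group A'] (q : G →* A)
    (q' : G' →* A') (p : G' →* G) : Prop where
  map : ∀ x, q' x = 1 → q (p x) = 1
  inj : ∀ x, q' x = 1 → p x = 1 → x = 1
  surj : ∀ g, q g = 1 → ∃ x, q' x = 1 ∧ p x = g

end NF83
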