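import Pool.Agent.H.MP_83e36b_nt.bc.FDef
import Pool.Agent.H.MP_83e36b_nt.tw.SymD
import Pool.Agent.H.MP_83e36b_nt.re.KDef

/-! Transfer of the conditions on the kernels to the fibre product. -/

set_option autoImplicit false

open DC83

namespace NF83

section
variable {k K L E : Type} [Field k] [Field K] [Field L] [Field E] [Algebra k K] [Algebra k L]
  [Algebra k E] [Algebra K E] [Algebra L E]

/-- Proof: `q' x = ⟨(q (p x), α' x), _⟩`. -/
theorem exists_qf {G A G' : Type} [Group G] [Group A] [Group G'] {γ : A →* (K ≃ₐ[k] K)}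
    {q : G →* A} {p : G' →* G} {α' : G' →* (E ≃ₐ[L] E)} (h : IsFib (γ.comp q) p α') :
    ∃ q' : G' →* Fib L E γ, (fibA L E γ).comp q' = α' ∧ (∀ x, fibG L E γ (q' x) = q (p x)) ∧
      (Function.Surjective q → Function.Surjective q') ∧ KIso q q' p := by
  refine ⟨((q.comp p).prod α').codRestrict (Fib L E γ) (fun x a => h.comp x a), rfl,
    fun x => rfl, ?_, ?_⟩
  · rintro hq ⟨⟨a, σ⟩, hy⟩
    obtain ⟨g, hg⟩ := hq a
    obtain ⟨x, hx1, hx2⟩ := h.surj g σ (fun b => by
      have h1 := hy b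
      rw [MonoidHom.comp_apply, hg]
      exact h1)
    refine ⟨x, Subtype.ext (Prod.ext ?_ hx2)⟩
    show q (p x) = a
    rw [hx1, hg]
  · refine ⟨?_, ?_, ?_⟩
    · intro x hx
      exact congrArg (fun y : Fib L E γ => y.1.1) hx
    · intro x hx hp
      exact h.inj x hp (congrArg (fun y : Fib L E γ => y.1.2) hx)
    · intro g hg
      obtain ⟨x, hx1, hx2⟩ := h.surj g 1 (fun b => by
        rw [MonoidHom.comp_apply, hg, map_one]
        rfl)
      refine ⟨x, Subtype.ext (Prod.ext ?_ hx2), hx1⟩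
      show q (p x) = 1
      rw [hx1, hg]

/-- a section of `q` gives a section of `q'`.
Proof: `s' y` = the element `x` with `p x = s (fibG y)`, `α' x = fibA y` (`h.surj`, choose;
multiplicative by `h.inj`). -/
theorem exists_sf {G A G' : Type} [Group G] [Group A] [Group G'] {γ : A →* (K ≃ₐ[k] K)}
    {q : G →* A} {p : G' →* G} {α' : G' →* (E ≃ₐ[L] E)} (h : IsFib (γ.comp q) p α')
    {q' : G' →* Fib L E γ} (h1 : (fibA L E γ).comp q' = α')
    (h2 : ∀ x, fibG L E γ (q' x) = q (p x)) {s : A →* G} (hs : ∀ a, q (s a) = a) :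
    ∃ s' : Fib L E γ →* G', ∀ y, q' (s' y) = y := by
  have hex : ∀ y : Fib L E γ, ∃ x, p x = s (fibG L E γ y) ∧ α' x = fibA L E γ y := by
    intro y
    refine h.surj _ _ fun b => ?_
    rw [MonoidHom.comp_apply, hs]
    exact y.2 b
  choose t ht1 ht2 using hex
  have hinj : ∀ x x' : G', p x = p x' → α' x = α' x' → x = x' := by
    intro x x' e1 e2
    have h3 := h.inj (x * x'⁻¹) (by rw [map_mul, map_inv, e1, mul_inv_cancel])
      (by rw [map_mul, map_inv, e2, mul_inv_cancel])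
    exact mul_inv_eq_one.1 h3
  have hmul : ∀ y z, t (y * z) = t y * t z := by
    intro y z
    refine hinj _ _ ?_ ?_
    · rw [map_mul, ht1, ht1, ht1, map_mul, map_mul]
    · rw [map_mul, ht2, ht2, ht2, map_mul]
  refine ⟨MonoidHom.mk' t hmul, fun y => ?_⟩
  refine Subtype.ext (Prod.ext ?_ ?_)
  · have h3 := h2 (t y)
    rw [ht1, hs] at h3
    exact h3
  · have h3 : (fibA L E γ).comp q' (t y) = α' (t y) := by rw [h1]
    rw [ht2] at h3
    exact h3

end

section
variable {G A G' A' : Type} [Group G] [Group A] [Group G'] [Group A'] {q : G →* A}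
  {q' : G' →* A'} {p : G' →* G}

theorem SymKer.pull {J I : Type} [MulAction G J] [MulAction A I] {f : J → I} (h : SymKer q f)
    (pA : A' →* A) (hp : ∀ x, pA (q' x) = q (p x)) (hk : KIso q q' p) :
    @SymKer G' A' _ _ q' J I (MulAction.compHom J p) (MulAction.compHom I pA) f := by
  let _ : MulAction G' J := MulAction.compHom J p
  let _ : MulAction A' I := MulAction.compHom I pA
  refine ⟨?_, ?_, ?_⟩
  · intro g j
    show f (p g • j) = pA (q' g) • f j
    rw [hp, h.equiv]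
  · intro σ hσ
    obtain ⟨g, hg1, hg2⟩ := h.onto σ hσ
    obtain ⟨x, hx1, hx2⟩ := hk.surj g hg1
    refine ⟨x, hx1, fun j => ?_⟩
    show p x • j = σ j
    rw [hx2, hg2]
  · intro g hg hj
    exact hk.inj g hg (h.inj (p g) (hk.map g hg) hj)

theorem KerDbl.pull {n N : ℕ} {φ : G →* CMat N} (h : KerDbl n N q φ) (hk : KIso q q' p) :
    KerDbl n N q' (φ.comp p) := by
  refine ⟨fun g => h.mem (p g), ?_, ?_⟩
  · intro g hg hφ
    exact hk.inj g hg (h.inj (p g) (hk.map g hg) hφ)
  · intro x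
    rw [h.image]
    constructor
    · rintro ⟨g, hg1, hg2⟩
      obtain ⟨y, hy1, hy2⟩ := hk.surj g hg1
      refine ⟨y, hy1, ?_⟩
      rw [MonoidHom.comp_apply, hy2, hg2]
    · rintro ⟨y, hy1, hy2⟩
      exact ⟨p y, hk.map y hy1, hy2⟩

/-- Proof: `χ' = χ.comp (the restriction of p to q'.ker → q.ker)`, `π' = π.comp p`. -/
theorem KerAlt.pull {n : ℕ} {χ : q.ker →* CMat n} {π : G →* Equiv.Perm (Fin n)}
    (h : KerAlt n q χ π) (hk : KIso q q' p) :
    ∃ χ' : q'.ker →* CMat n, KerAlt n q' χ' (π.comp p) := by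
  obtain ⟨r, hr⟩ : ∃ r : q'.ker →* q.ker, ∀ x, ((r x : q.ker) : G) = p (x : G') := by
    refine ⟨(p.comp q'.ker.subtype).codRestrict q.ker fun x => ?_, fun x => rfl⟩
    exact hk.map _ x.2
  refine ⟨χ.comp r, ?_, ?_, ?_⟩
  · intro x y hxy
    have h1 : r x = r y := h.inj hxy
    have h2 : p (x : G') = p (y : G') := by
      rw [← hr, ← hr, h1]
    have h3 := hk.inj ((x : G') * (y : G')⁻¹) (by
      have hx : q' (x : G') = 1 := x.2
      have hy : q' (y : G') = 1 := y.2
      rw [map_mul, map_inv, hx, hy, mul_inv_cancel]) (by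
      rw [map_mul, map_inv, h2, mul_inv_cancel])
    exact Subtype.ext (mul_inv_eq_one.1 h3)
  · intro x
    rw [h.image]
    constructor
    · rintro ⟨g, hg⟩
      obtain ⟨y, hy1, hy2⟩ := hk.surj (g : G) g.2
      refine ⟨⟨y, hy1⟩, ?_⟩
      have h1 : r ⟨y, hy1⟩ = g := Subtype.ext (by rw [hr]; exact hy2)
      rw [MonoidHom.comp_apply, h1, hg]
    · rintro ⟨y, hy⟩
      exact ⟨r y, hy⟩
  · intro x i
    have h1 := h.nat (r x) i
    rw [hr] at h1
    exact h1

end

end NF83
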