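import Pool.Agent.H.MP_83e36b_nt.bc.Act
import Pool.Agent.H.MP_83e36b_nt.bc.Desc

/-! The fixed field of the fibre product. -/

set_option autoImplicit false

open CM83 NR83

namespace NF83

/-- Artin's theorem. -/
private theorem Fix_gal {k : Type} [Field k] {K : Type} [Field K] [Algebra k K] {G : Type} [Group G]
    [Finite G] {α : G →* (K ≃ₐ[k] K)} (hfix : fixF α = ⊥) :
    FiniteDimensional k K ∧ IsGalois k K ∧ Function.Surjective α := by
  haveI : Finite α.range := Finite.of_surjective α.rangeRestrict α.rangeRestrict_surjective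
  have h1 : FiniteDimensional (fixF α) K := by
    unfold fixF
    exact inferInstanceAs (FiniteDimensional (FixedPoints.subfield α.range K) K)
  rw [hfix] at h1
  have h2 : FiniteDimensional k K := Module.Finite.trans (⊥ : IntermediateField k K) K
  refine ⟨h2, IsGalois.of_fixedField_eq_bot k K ?_, ?_⟩
  · rw [eq_bot_iff, ← hfix]
    exact IntermediateField.fixedField_le le_top
  · have h3 := IntermediateField.fixingSubgroup_fixedField α.range
    have h4 : IntermediateField.fixedField α.range = ⊥ := hfix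
    rw [h4, IntermediateField.fixingSubgroup_bot] at h3
    exact MonoidHom.range_eq_top.1 h3.symm

/-- The action over the fixed field. -/
private theorem Fix_lift {k : Type} [Field k] {F : Type} [Field F] [Algebra k F] {G : Type} [Group G]
    [Finite G] (β : G →* (F ≃ₐ[k] F)) : FiniteDimensional (fixF β) F ∧ IsGalois (fixF β) F ∧
      ∀ τ : F ≃ₐ[fixF β] F, ∃ g, ∀ z, β g z = τ z := by
  obtain ⟨γ, hγ⟩ : ∃ γ : G →* (F ≃ₐ[fixF β] F), ∀ g z, γ g z = β g z := by
    refine ⟨MonoidHom.mk' (fun g => AlgEquiv.ofRingEquiv (f := (β g : F ≃+* F))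
      (fun r => (mem_fixF β _).1 r.2 g)) fun g g' => AlgEquiv.ext fun z => ?_, fun g z => rfl⟩
    show β (g * g') z = β g (β g' z)
    rw [map_mul, AlgEquiv.mul_apply]
  have h1 : fixF γ = ⊥ := by
    rw [eq_bot_iff]
    intro z hz
    rw [IntermediateField.mem_bot]
    refine ⟨⟨z, (mem_fixF β z).2 fun g => ?_⟩, rfl⟩
    rw [← hγ]
    exact (mem_fixF γ z).1 hz g
  obtain ⟨h2, h3, h4⟩ := Fix_gal h1
  refine ⟨h2, h3, fun τ => ?_⟩
  obtain ⟨g, hg⟩ := h4 τ
  exact ⟨g, fun z => by rw [← hγ, hg]⟩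

/-- The case `L = k`.  Proof: the elements `x` of `G₁` with `p x = 1` give all `σ ∈ Gal(E/K)` (`h.surj`
with `g = 1`), `β₁ x = rfh σ` (`rfh_ext`: `p x = 1` so `β₁ x` fixes `xv E i = rfh (xv K i)`), so
`z = rfh y` by `rfh_desc`.  For `g ∈ G` there is `σ ∈ Gal(E/k)` which induces `α g` on `K`
(`AlgEquiv.restrictNormalHom_surjective` or `IsAlgClosure`/`AlgEquiv.liftNormal`), `h.surj` gives `x`, and
`rfh (β g y) = β₁ x (rfh y) = rfh y`. -/
theorem fix_k {k K E : Type} [Field k] [CharZero k] [Field K] [Field E] [Algebra k K]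
    [Algebra k E] [Algebra K E] [IsScalarTower k K E] [FiniteDimensional k K]
    [FiniteDimensional k E] [IsGalois k K] [IsGalois k E] {G : Type} [Group G] [Finite G]
    {α : G →* (K ≃ₐ[k] K)} {d : ℕ} {β : G →* (RF K d ≃ₐ[k] RF K d)} (hβ : SemiLin α β)
    {G₁ : Type} [Group G₁] {p : G₁ →* G} {α₁ : G₁ →* (E ≃ₐ[k] E)} (h : IsFib α p α₁)
    {β₁ : G₁ →* (RF E d ≃ₐ[k] RF E d)} (hβ₁ : SemiLin α₁ β₁)
    (hβι : ∀ x z, β₁ x (rfh (algebraMap K E) d z) = rfh (algebraMap K E) d (β (p x) z))
    (z : RF E d) (hz : ∀ x, β₁ x z = z) :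
    ∃ y : RF K d, (∀ g, β g y = y) ∧ rfh (algebraMap K E) d y = z := by
  have : FiniteDimensional K E := FiniteDimensional.right k K E
  have : IsGalois K E := IsGalois.tower_top_of_isGalois k K E
  have h1 : ∀ σ : E ≃ₐ[K] E, rfh ((σ : E ≃ₐ[K] E) : E →+* E) d z = z := by
    intro σ
    obtain ⟨x, hx1, hx2⟩ := h.surj 1 (σ.restrictScalars k) (fun a => by
      rw [map_one, AlgEquiv.one_apply]
      exact σ.commutes a)
    have h2 : ((β₁ x : RF E d ≃ₐ[k] RF E d) : RF E d →+* RF E d) =
        rfh ((σ : E ≃ₐ[K] E) : E →+* E) d := by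
      refine rfh_ext (fun a => ?_) (fun i => ?_)
      · rw [rfh_C]
        refine (hβ₁.coeff x a).trans ?_
        rw [hx2]
        rfl
      · rw [rfh_X]
        have h3 := hβι x (xv K i)
        rw [hx1, map_one, AlgEquiv.one_apply, rfh_X] at h3
        exact h3
    rw [← h2]
    exact hz x
  obtain ⟨y, hy⟩ := rfh_desc z h1
  refine ⟨y, fun g => ?_, hy⟩
  obtain ⟨σ, hσ⟩ := AlgEquiv.restrictNormalHom_surjective (F := k) (K₁ := K) E (α g)
  obtain ⟨x, hx1, hx2⟩ := h.surj g σ (fun a => by
    rw [← hσ]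
    exact (AlgEquiv.restrictNormal_commutes σ K a).symm)
  apply (rfh (algebraMap K E) d).injective
  rw [← hx1, ← hβι, hy, hz]

/-- The general case.  Proof: `⊇` is clear.  `⊆`: let `G₁ = Fib k E α`, `β₁` from `exists_act` for `L = k`
(`isFib α`), `H₀ = fixF β₁`; `H₀ = {rfh y | y fixed by β}` by `fix_k`.  By Artin's theorem
`RF E d / H₀` is finite Galois and every automorphism over `H₀` is some `β₁ x` (`G₁` is finite;
`IntermediateField.fixingSubgroup_fixedField`, see `gal_of_fixR` in rg/FinG.lean).  Let `N` be the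
intermediate field of `RF E d / H₀` generated by `L`; `z ∈ fixedField (fixingSubgroup N) = N`
(`IsGalois.fixedField_fixingSubgroup`): if `τ = β₁ x₁` fixes `L` (the image of `L` in `E ⊆ RF E d`), then
`α₁ x₁` is the identity on `L`, so it is some `σ ∈ Gal(E/L)` and `x₁` corresponds to an element `x` of
`G'` (`h.surj`) with `p x = p₁ x₁`, `α' x = α₁ x₁` and `β' x = τ` (they agree on the constants and on the
variables: `rfh_ext`, `hβι`), so `τ z = z`.  `N` is contained in the subfield generated by `L` and the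
`rfh y`. -/
theorem fix_L {k K L E : Type} [Field k] [CharZero k] [Field K] [Field L] [Field E] [Algebra k K]
    [Algebra k L] [Algebra k E] [Algebra K E] [Algebra L E] [IsScalarTower k K E]
    [IsScalarTower k L E] [FiniteDimensional k K] [FiniteDimensional k E] [IsGalois k K]
    [IsGalois k E] {G : Type} [Group G] [Finite G]
    {α : G →* (K ≃ₐ[k] K)} {d : ℕ} {β : G →* (RF K d ≃ₐ[k] RF K d)} (hβ : SemiLin α β)
    {G' : Type} [Group G'] {p : G' →* G} {α' : G' →* (E ≃ₐ[L] E)} (h : IsFib α p α')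
    {β' : G' →* (RF E d ≃ₐ[L] RF E d)} (hβ' : SemiLin α' β')
    (hβι : ∀ x z, β' x (rfh (algebraMap K E) d z) = rfh (algebraMap K E) d (β (p x) z)) :
    fixF β' = IntermediateField.adjoin L
      (Set.range fun y : fixF β => rfh (algebraMap K E) d (y : RF K d)) := by
  apply le_antisymm
  · intro z hz
    rw [mem_fixF] at hz
    obtain ⟨β₁, hβ₁, hβ₁ι⟩ := exists_act hβ (isFib (L := k) (E := E) α)
    haveI : Finite (Fib k E α) := Subtype.finite
    obtain ⟨hfd, hgal, hsurj⟩ := Fix_lift β₁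
    obtain ⟨N, hN⟩ : ∃ N : IntermediateField (fixF β₁) (RF E d),
        N = IntermediateField.adjoin (fixF β₁) (Set.range (algebraMap L (RF E d))) := ⟨_, rfl⟩
    have hzN : z ∈ N := by
      rw [← IsGalois.fixedField_fixingSubgroup N, IntermediateField.mem_fixedField_iff]
      intro τ hτ
      rw [IntermediateField.mem_fixingSubgroup_iff] at hτ
      obtain ⟨x₁, hx₁⟩ := hsurj τ
      rw [← hx₁]
      -- the element fixes `L`
      have hL : ∀ l : L, fibA k E α x₁ (algebraMap L E l) = algebraMap L E l := by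
        intro l
        have h1 : algebraMap L (RF E d) l ∈ N := by
          rw [hN]
          exact IntermediateField.subset_adjoin _ _ ⟨l, rfl⟩
        have h2 := hτ _ h1
        rw [← hx₁, IsScalarTower.algebraMap_apply L E (RF E d), hβ₁.coeff] at h2
        exact (algebraMap E (RF E d)).injective h2
      obtain ⟨x, hxp, hxα⟩ := h.surj (fibG k E α x₁)
        (AlgEquiv.ofRingEquiv (f := (fibA k E α x₁ : E ≃+* E)) hL) (fun a =>
          (isFib (L := k) (E := E) α).comp x₁ a)
      have h2 : ((β' x : RF E d ≃ₐ[L] RF E d) : RF E d →+* RF E d) =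
          ((β₁ x₁ : RF E d ≃ₐ[k] RF E d) : RF E d →+* RF E d) := by
        refine rfh_ext (fun a => ?_) (fun i => ?_)
        · refine (hβ'.coeff x a).trans ?_
          rw [hxα]
          exact (hβ₁.coeff x₁ a).symm
        · have h3 := hβι x (xv K i)
          have h4 := hβ₁ι x₁ (xv K i)
          rw [hxp, ← h4, rfh_X] at h3
          exact h3
      have h3 := RingHom.congr_fun h2 z
      exact h3.symm.trans (hz x)
    obtain ⟨M, hM⟩ : ∃ M : IntermediateField L (RF E d), M = IntermediateField.adjoin L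
      (Set.range fun y : fixF β => rfh (algebraMap K E) d (y : RF K d)) := ⟨_, rfl⟩
    rw [← hM]
    have hM1 : ∀ x : fixF β₁, algebraMap (fixF β₁) (RF E d) x ∈ M.toSubfield := by
      intro x
      obtain ⟨y, hy1, hy2⟩ := fix_k hβ (isFib (L := k) (E := E) α) hβ₁ hβ₁ι (x : RF E d)
        ((mem_fixF β₁ _).1 x.2)
      show (x : RF E d) ∈ M
      rw [hM, ← hy2]
      exact IntermediateField.subset_adjoin _ _ ⟨⟨y, (mem_fixF β y).2 hy1⟩, rfl⟩
    have h1 : N ≤ M.toSubfield.toIntermediateField hM1 := by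
      rw [hN, IntermediateField.adjoin_le_iff]
      rintro _ ⟨l, rfl⟩
      exact M.algebraMap_mem l
    exact h1 hzN
  · rw [IntermediateField.adjoin_le_iff]
    rintro _ ⟨y, rfl⟩
    show _ ∈ fixF β'
    rw [mem_fixF]
    intro x
    rw [hβι, (mem_fixF β _).1 y.2]

end NF83
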