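import Pool.Agent.H.MP_83e36b_nt.wa.Alg

/-! The generic point over `L`. -/

set_option autoImplicit false

open Polynomial WA83

namespace NF83

/-- the polynomial over `L` -/
noncomputable def polL (k L : Type) [Field k] [Field L] [Algebra k L] {m : ℕ}
    (f : (MvPolynomial (Fin m) k)[X]) : (MvPolynomial (Fin m) L)[X] :=
  f.map (MvPolynomial.map (algebraMap k L))

/-- Proof: induction, or `Polynomial.eval₂_map` and `MvPolynomial.eval₂_map`. -/
theorem evP_polL {k L M : Type} [Field k] [Field L] [Field M] [Algebra k L] (φ : L →+* M) {m : ℕ}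
    (x : Fin m → M) (y : M) (f : (MvPolynomial (Fin m) k)[X]) :
    evP φ x y (polL k L f) = evP (φ.comp (algebraMap k L)) x y f := by
  unfold evP polL
  rw [Polynomial.coe_eval₂RingHom, Polynomial.coe_eval₂RingHom, Polynomial.eval₂_map]
  congr 1
  refine RingHom.ext fun q => ?_
  rw [RingHom.comp_apply]
  exact MvPolynomial.eval₂Hom_map_hom _ _ _ _

theorem evP_hom {k F W : Type} [Field k] [Field F] [Field W] (φ : k →+* F) (θ : F →+* W) {m : ℕ}
    (x : Fin m → F) (y : F) (f : (MvPolynomial (Fin m) k)[X]) :
    evP (θ.comp φ) (fun i => θ (x i)) (θ y) f = θ (evP φ x y f) := by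
  unfold evP
  rw [Polynomial.coe_eval₂RingHom, Polynomial.coe_eval₂RingHom, Polynomial.hom_eval₂,
    MvPolynomial.comp_eval₂Hom]

private theorem GenL_inj {k L : Type} [Field k] [Field L] [Algebra k L] {m : ℕ} :
    Function.Injective (polL k L (m := m)) :=
  Polynomial.map_injective _ (MvPolynomial.map_injective _ (algebraMap k L).injective)

/-- coordinates of a polynomial over `L` -/
private theorem GenL_dec {k L : Type} [Field k] [Field L] [Algebra k L] {n : ℕ}
    (b : Module.Basis (Fin n) k L) {m : ℕ} (a : (MvPolynomial (Fin m) L)[X]) :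
    ∃ a' : Fin n → (MvPolynomial (Fin m) k)[X],
      a = ∑ i, C (MvPolynomial.C (b i)) * polL k L (a' i) := by
  induction a using Polynomial.induction_on' with
  | add p q hp hq =>
    obtain ⟨p', hp⟩ := hp
    obtain ⟨q', hq⟩ := hq
    refine ⟨fun i => p' i + q' i, ?_⟩
    rw [hp, hq, ← Finset.sum_add_distrib]
    refine Finset.sum_congr rfl fun i _ => ?_
    unfold polL
    rw [Polynomial.map_add, mul_add]
  | monomial d q =>
    induction q using MvPolynomial.induction_on' with
    | add p q hp hq =>
      obtain ⟨p', hp⟩ := hp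
      obtain ⟨q', hq⟩ := hq
      refine ⟨fun i => p' i + q' i, ?_⟩
      rw [map_add, hp, hq, ← Finset.sum_add_distrib]
      refine Finset.sum_congr rfl fun i _ => ?_
      unfold polL
      rw [Polynomial.map_add, mul_add]
    | monomial s c =>
      refine ⟨fun i => Polynomial.monomial d (MvPolynomial.monomial s (b.repr c i)), ?_⟩
      have h1 : ∀ i, C (MvPolynomial.C (b i)) * polL k L (m := m)
          (Polynomial.monomial d (MvPolynomial.monomial s (b.repr c i))) =
          Polynomial.monomial d (MvPolynomial.monomial s (b.repr c i • b i)) := by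
        intro i
        unfold polL
        rw [Polynomial.map_monomial, MvPolynomial.map_monomial, Polynomial.C_mul_monomial,
          MvPolynomial.C_mul_monomial, Algebra.smul_def, mul_comm]
      rw [Finset.sum_congr rfl fun i _ => h1 i, ← map_sum, ← map_sum, b.sum_repr]

private theorem GenL_ker {k L F W : Type} [Field k] [CharZero k] [Field L] [Field F] [Field W]
    [Algebra k L] [Algebra k F] [Algebra k W] [Algebra L W] [IsScalarTower k L W]
    [FiniteDimensional k L] (θ : F →ₐ[k] W)
    (hdis : ∀ (n : ℕ) (b : Fin n → L), LinearIndependent k b → ∀ c : Fin n → F,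
      ∑ i, θ (c i) * algebraMap L W (b i) = 0 → ∀ i, c i = 0)
    {m : ℕ} {f : (MvPolynomial (Fin m) k)[X]} {ξ : Fin m → F} {η : F} (h : Generic f F ξ η)
    (a : (MvPolynomial (Fin m) L)[X])
    (ha : evP (algebraMap L W) (fun i => θ (ξ i)) (θ η) a = 0) : polL k L f ∣ a := by
  have b := Module.finBasis k L
  obtain ⟨a', ha'⟩ := GenL_dec b a
  have hev : ∀ p : (MvPolynomial (Fin m) k)[X],
      evP (algebraMap L W) (fun i => θ (ξ i)) (θ η) (polL k L p) =
        θ (evP (algebraMap k F) ξ η p) := by
    intro p
    rw [evP_polL, ← IsScalarTower.algebraMap_eq k L W, ← θ.comp_algebraMap]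
    exact evP_hom (algebraMap k F) (θ : F →+* W) ξ η p
  have h1 : ∑ i, θ (evP (algebraMap k F) ξ η (a' i)) * algebraMap L W (b i) = 0 := by
    rw [← ha, ha', map_sum]
    refine Finset.sum_congr rfl fun i _ => ?_
    rw [map_mul, hev, mul_comm]
    congr 1
    unfold evP
    rw [Polynomial.coe_eval₂RingHom, Polynomial.eval₂_C]
    exact (MvPolynomial.eval₂Hom_C _ _ _).symm
  have h2 := hdis _ b b.linearIndependent _ h1
  rw [ha']
  refine Finset.dvd_sum fun i _ => Dvd.dvd.mul_left ?_ _
  obtain ⟨q, hq⟩ := Generic.dvd h (a' i) (h2 i)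
  refine ⟨polL k L q, ?_⟩
  rw [hq]
  unfold polL
  rw [Polynomial.map_mul]

/-- The generic point over `L`, in the compositum of `L` and of the field of functions `F` in a field `W`
in which they are linearly disjoint.
Proof: `deg`, `ind` (`L / k` algebraic), `zero`, `top` are easy.  `irr`: `polL f` is prime: it is not a
unit, it is not 0; if it divides `a * b`, then `a` or `b` vanishes at the generic point, say `a`; write
`a = ∑ C (C (b i)) * polL (a i)` with a basis `b` of `L / k` (decompose the coefficients); then
`∑ b i * θ (evP (a i)) = 0`, so `evP (a i) = 0` by `hdis`, `f ∣ a i` by `Generic.dvd` (wa/Alg.lean) and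
`polL f ∣ a`. -/
theorem gen_L {k L F W : Type} [Field k] [CharZero k] [Field L] [Field F] [Field W] [Algebra k L]
    [Algebra k F] [Algebra k W] [Algebra L W] [IsScalarTower k L W] [FiniteDimensional k L]
    (θ : F →ₐ[k] W)
    (hdis : ∀ (n : ℕ) (b : Fin n → L), LinearIndependent k b → ∀ c : Fin n → F,
      ∑ i, θ (c i) * algebraMap L W (b i) = 0 → ∀ i, c i = 0)
    {m : ℕ} {f : (MvPolynomial (Fin m) k)[X]} {ξ : Fin m → F} {η : F} (h : Generic f F ξ η)
    {P : IntermediateField L W} (hP : P = IntermediateField.adjoin L (Set.range θ))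
    {ξ' : Fin m → P} {η' : P} (hξ : ∀ i, (ξ' i : W) = θ (ξ i)) (hη : (η' : W) = θ η) :
    Generic (polL k L f) P ξ' η' := by
  have hev : evP (algebraMap L W) (fun i => θ (ξ i)) (θ η) (polL k L f) = 0 := by
    rw [evP_polL, ← IsScalarTower.algebraMap_eq k L W, ← θ.comp_algebraMap]
    refine (evP_hom (algebraMap k F) (θ : F →+* W) ξ η f).trans ?_
    rw [h.zero, map_zero]
  have hf0 : f ≠ 0 := h.irr.ne_zero
  have hL0 : polL k L f ≠ 0 := by
    intro h1
    apply hf0
    apply GenL_inj (k := k) (L := L)
    rw [h1]
    unfold polL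
    rw [Polynomial.map_zero]
  have hder : derivative (polL k L f) = polL k L (derivative f) := by
    unfold polL
    rw [Polynomial.derivative_map]
  have hker := GenL_ker (L := L) (W := W) θ hdis h
  have hPW : ∀ p : (MvPolynomial (Fin m) L)[X],
      algebraMap P W (evP (algebraMap L P) ξ' η' p) =
        evP (algebraMap L W) (fun i => θ (ξ i)) (θ η) p := by
    intro p
    have h1 := evP_hom (algebraMap L P) (algebraMap P W) ξ' η' p
    rw [← IsScalarTower.algebraMap_eq L P W] at h1
    rw [← h1]
    have h2 : (fun i => algebraMap P W (ξ' i)) = fun i => θ (ξ i) := funext fun i => hξ i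
    have h3 : algebraMap P W η' = θ η := hη
    rw [h2, h3]
  have hprime : Prime (polL k L f) := by
    refine ⟨hL0, ?_, ?_⟩
    · intro hu
      have h1 := hu.map (evP (algebraMap L W) (fun i => θ (ξ i)) (θ η))
      rw [hev] at h1
      exact not_isUnit_zero h1
    · intro a b hab
      obtain ⟨c, hc⟩ := hab
      have h1 := congrArg (evP (algebraMap L W) (fun i => θ (ξ i)) (θ η)) hc
      rw [map_mul, map_mul, hev, zero_mul] at h1
      rcases mul_eq_zero.1 h1 with h2 | h2
      · exact Or.inl (hker a h2)
      · exact Or.inr (hker b h2)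
  have hnd : (polL k L f).natDegree ≠ 0 := by
    intro h0
    apply h.deg
    apply GenL_inj (k := k) (L := L)
    rw [← hder, Polynomial.eq_C_of_natDegree_eq_zero h0, derivative_C]
    unfold polL
    rw [Polynomial.map_zero]
  refine ⟨hprime.irreducible, ?_, ?_, ?_, ?_⟩
  · rw [hder]
    intro h1
    apply h.deg
    apply GenL_inj (k := k) (L := L)
    rw [h1]
    unfold polL
    rw [Polynomial.map_zero]
  · rw [algebraicIndependent_iff]
    intro p hp
    have h1 : evP (algebraMap L P) ξ' η' (C p) = 0 := by
      unfold evP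
      rw [Polynomial.coe_eval₂RingHom, Polynomial.eval₂_C]
      exact hp
    have h2 := hker (C p) (by rw [← hPW, h1, map_zero])
    by_contra hp0
    have h3 := Polynomial.natDegree_le_of_dvd h2 (by
      rw [Ne, Polynomial.C_eq_zero]
      exact hp0)
    rw [Polynomial.natDegree_C] at h3
    exact hnd (Nat.le_zero.mp h3)
  · apply (algebraMap P W).injective
    rw [hPW, hev, map_zero]
  · have hS : (P.val '' (insert η' (Set.range ξ'))) = insert (θ η) (Set.range fun i => θ (ξ i)) := by
      rw [Set.image_insert_eq, ← Set.range_comp]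
      congr 1
      exact congrArg Set.range (funext fun i => hξ i)
    have hQ : P ≤ IntermediateField.adjoin L (insert (θ η) (Set.range fun i => θ (ξ i))) := by
      rw [hP, IntermediateField.adjoin_le_iff]
      rintro _ ⟨z, rfl⟩
      have hz : z ∈ IntermediateField.adjoin k (insert η (Set.range ξ)) := by
        rw [h.top]
        trivial
      have hle : IntermediateField.adjoin k (insert η (Set.range ξ)) ≤
          IntermediateField.comap θ ((IntermediateField.adjoin L
            (insert (θ η) (Set.range fun i => θ (ξ i)))).restrictScalars k) := by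
        rw [IntermediateField.adjoin_le_iff]
        rintro x (hx | ⟨i, hx⟩)
        · rw [hx]
          exact IntermediateField.subset_adjoin L _ (Set.mem_insert _ _)
        · rw [← hx]
          exact IntermediateField.subset_adjoin L _ (Set.mem_insert_of_mem _ ⟨i, rfl⟩)
      exact hle hz
    rw [eq_top_iff]
    intro z _
    have h1 : (z : W) ∈ IntermediateField.map P.val
        (IntermediateField.adjoin L (insert η' (Set.range ξ'))) := by
      rw [IntermediateField.adjoin_map, hS]
      exact hQ z.2
    obtain ⟨y, hy, hyz⟩ := h1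
    have h2 : y = z := Subtype.ext hyz
    rw [← h2]
    exact hy

end NF83
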