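import Pool.Agent.H.MP_83e36b_nt.bc.Com
import Pool.Agent.H.MP_83e36b_nt.bc.FBase
import Pool.Agent.H.MP_83e36b_nt.bc.Fix
import Pool.Agent.H.MP_83e36b_nt.bc.Dis
import Pool.Agent.H.MP_83e36b_nt.bc.StI
import Pool.Agent.H.MP_83e36b_nt.bc.GenL
import Pool.Agent.H.MP_83e36b_nt.rg.FinG

/-! Base change: from all number fields `L` to the points over `L` of the varieties over `k`. -/

set_option autoImplicit false

open Polynomial NumberField IsDedekindDomain

namespace NF83

open CM83 NR83 WA83 DC83

/-- `rfh` is linear over the small field -/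
private theorem FinL_alg {k K E : Type} [Field k] [Field K] [Field E] [Algebra k K] [Algebra k E]
    (f : K →+* E) (hf : f.comp (algebraMap k K) = algebraMap k E) (d : ℕ) (c : k) :
    rfh f d (algebraMap k (RF K d) c) = algebraMap k (RF E d) c := by
  rw [IsScalarTower.algebraMap_apply k K (RF K d), rfh_C,
    IsScalarTower.algebraMap_apply k E (RF E d), ← hf]
  rfl

/-- Points over finite extensions, from the theorem over all number fields. -/
theorem main_L_of
    (hmain : ∀ {k : Type} [Field k] [NumberField k] {K : Type} [Field K] [Algebra k K]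
      {G : Type} [Group G] [Finite G] (α : G →* (K ≃ₐ[k] K)), fixF α = ⊥ → UTower α → WAFinFor α)
    {k : Type} [Field k] [NumberField k] {K : Type} [Field K] [Algebra k K]
    {G : Type} [Group G] [Finite G] (α : G →* (K ≃ₐ[k] K)) (hfix : fixF α = ⊥) (hα : UTower α)
    {d : ℕ} (β : G →* (RF K d ≃ₐ[k] RF K d)) (hβ : SemiLin α β)
    {m : ℕ} {f g : (MvPolynomial (Fin m) k)[X]} {F : Type} [Field F] [Algebra k F]
    {ξ : Fin m → F} {η : F} (h : Generic f F ξ η) (hg : evP (algebraMap k F) ξ η g ≠ 0)
    (hF : StablyIso k F (fixF β)) (L : Type) [Field L] [NumberField L] [Algebra k L] :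
    WAFin L (polL k L f) (polL k L g) := by
  obtain ⟨hK1, hK2, hαs⟩ := gal_of_fixR hfix
  have hL : FiniteDimensional k L := Module.Finite.of_restrictScalars_finite ℚ k L
  obtain ⟨E, iE, iA1, iA2, iA3, hE1, hE2, hE3, hE4⟩ := exists_common k K L
  have hLE : FiniteDimensional L E := FiniteDimensional.right k L E
  have hLG : IsGalois L E := IsGalois.tower_top_of_isGalois k L E
  have hfinG : Finite (Fib L E α) := inferInstance
  -- the restriction to `K`
  have hres : ∀ σ : E ≃ₐ[L] E, ∃ τ : K ≃ₐ[k] K,
      ∀ a, σ (algebraMap K E a) = algebraMap K E (τ a) := by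
    intro σ
    refine ⟨(σ.restrictScalars k).restrictNormal K, fun a => ?_⟩
    exact ((σ.restrictScalars k).restrictNormal_commutes K a).symm
  have hfib := isFib (L := L) (E := E) α
  have hT : UTower (fibA L E α) := hα.base hres hfib
  have hαs' : Function.Surjective (fibA L E α) := by
    intro σ
    obtain ⟨τ, hτ⟩ := hres σ
    obtain ⟨g, rfl⟩ := hαs τ
    obtain ⟨x, -, hx⟩ := hfib.surj g σ hτ
    exact ⟨x, hx⟩
  have hfix' : fixF (fibA L E α) = ⊥ := by
    rw [eq_bot_iff]
    intro z hz
    rw [mem_fixF] at hz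
    refine (IsGalois.mem_bot_iff_fixed z).2 fun σ => ?_
    obtain ⟨x, rfl⟩ := hαs' σ
    exact hz x
  obtain ⟨β', hβ', hβι⟩ := exists_act hβ hfib
  have hfixL := fix_L hβ hfib hβ' hβι
  obtain ⟨a, r, ⟨e⟩⟩ := hF
  -- the embedding of the invariants
  have hKE : (algebraMap K E).comp (algebraMap k K) = algebraMap k E :=
    (IsScalarTower.algebraMap_eq k K E).symm
  let f₀ : fixF β →ₐ[k] RF E d :=
    { (rfh (algebraMap K E) d).comp (algebraMap (fixF β) (RF K d)) with
      commutes' := fun c => by
        show rfh (algebraMap K E) d (algebraMap (fixF β) (RF K d) (algebraMap k (fixF β) c)) = _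
        rw [← IsScalarTower.algebraMap_apply k (fixF β) (RF K d)]
        exact FinL_alg _ hKE d c }
  have hf₀ : (f₀ : fixF β →+* RF E d) =
      (rfh (algebraMap K E) d).comp (algebraMap (fixF β) (RF K d)) := rfl
  have hf₀' : ∀ y : fixF β, f₀ y = rfh (algebraMap K E) d (y : RF K d) := fun y => rfl
  have hst : IsScalarTower k L (RF E d) := IsScalarTower.of_algebraMap_eq fun c => by
    rw [IsScalarTower.algebraMap_apply k E (RF E d), IsScalarTower.algebraMap_apply k L E,
      ← IsScalarTower.algebraMap_apply L E (RF E d)]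
  have hst2 : IsScalarTower k L (RF (RF E d) r) := IsScalarTower.of_algebraMap_eq fun c => by
    rw [IsScalarTower.algebraMap_apply k (RF E d) (RF (RF E d) r),
      IsScalarTower.algebraMap_apply k L (RF E d),
      ← IsScalarTower.algebraMap_apply L (RF E d) (RF (RF E d) r)]
  let θ : F →ₐ[k] RF (RF E d) r :=
    { ((rfh (f₀ : fixF β →+* RF E d) r).comp
        (e : RF F a →+* RF (fixF β) r)).comp (algebraMap F (RF F a)) with
      commutes' := fun c => by
        show rfh (f₀ : fixF β →+* RF E d) r (e (algebraMap F (RF F a) (algebraMap k F c))) = _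
        rw [← IsScalarTower.algebraMap_apply k F (RF F a), AlgEquiv.commutes]
        refine FinL_alg _ ?_ r c
        ext c
        exact f₀.commutes c }
  have hθ : ∀ y, θ y = rfh (f₀ : fixF β →+* RF E d) r (e (algebraMap F (RF F a) y)) :=
    fun y => rfl
  obtain ⟨P, hP⟩ : ∃ P : IntermediateField L (RF (RF E d) r),
      P = IntermediateField.adjoin L (Set.range θ) := ⟨_, rfl⟩
  have hmem : ∀ y, θ y ∈ P := by
    intro y
    rw [hP]
    exact IntermediateField.subset_adjoin L _ ⟨y, rfl⟩
  have hst1 := st_L (k := k) (L := L) f₀ e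
  have hst3 : StablyIso L P (fixF β') := by
    rw [hP, hfixL]
    exact hst1
  have hdis : ∀ (n : ℕ) (b : Fin n → L), LinearIndependent k b → ∀ c : Fin n → F,
      ∑ i, θ (c i) * algebraMap L (RF (RF E d) r) (b i) = 0 → ∀ i, c i = 0 := by
    intro n b hb c hc i
    have hb' : LinearIndependent k fun i => algebraMap L E (b i) :=
      hb.map' (IsScalarTower.toAlgHom k L E).toLinearMap
        (LinearMap.ker_eq_bot.2 (algebraMap L E).injective)
    have h1 := dis_E hαs hβ (r := r) hb' (fun i => e (algebraMap F (RF F a) (c i))) (by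
      rw [← hc]
      refine Finset.sum_congr rfl fun i _ => ?_
      rw [hθ, IsScalarTower.algebraMap_apply L (RF E d) (RF (RF E d) r),
        IsScalarTower.algebraMap_apply L E (RF E d)]
      rfl) i
    have h2 : algebraMap F (RF F a) (c i) = 0 := (map_eq_zero_iff e e.injective).1 h1
    exact (map_eq_zero_iff _ (algebraMap F (RF F a)).injective).1 h2
  have hgen : Generic (polL k L f) P (fun i => ⟨θ (ξ i), hmem _⟩ : Fin m → P)
      (⟨θ η, hmem _⟩ : P) := gen_L θ hdis h hP (fun i => rfl) rfl
  refine hmain (fibA L E α) hfix' hT d β' hβ' m (polL k L f) (polL k L g) P _ _ hgen ?_ hst3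
  intro h0
  apply hg
  rw [evP_polL] at h0
  have h1 := congrArg (algebraMap P (RF (RF E d) r)) h0
  rw [map_zero, ← evP_hom] at h1
  have h2 : ((algebraMap P (RF (RF E d) r)).comp ((algebraMap L P).comp (algebraMap k L))) =
      (θ : F →+* RF (RF E d) r).comp (algebraMap k F) := by
    ext c
    show algebraMap L (RF (RF E d) r) (algebraMap k L c) = θ (algebraMap k F c)
    rw [θ.commutes, ← IsScalarTower.algebraMap_apply k L (RF (RF E d) r)]
  rw [h2] at h1
  have h3 : evP ((θ : F →+* RF (RF E d) r).comp (algebraMap k F))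
      (fun i => (θ : F →+* RF (RF E d) r) (ξ i)) ((θ : F →+* RF (RF E d) r) η) g = 0 := h1
  rw [evP_hom] at h3
  exact (map_eq_zero_iff _ (θ : F →+* RF (RF E d) r).injective).1 h3

end NF83
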